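import Pool.Agent.Helper79.GT.St5

/-!
# Project GT (MP_c2d095_lc), module PSX: the language of a good family is in PSPACE
-/

set_option autoImplicit false

namespace Pool.Agent.Helper47.GT

open Pool.Agent.Helper79.GT Pool.Agent.Helper79.GS Pool.Agent.Helper19.SK Pool.Agent.Helper73.DC
  Finset
open scoped Classical

private theorem b01_ne (p : Prop) : b01 p ≠ 0 ↔ p := by
  unfold b01
  by_cases h : p <;> simp [h]

private theorem ok0 (X : Sys (Fin 5)) (hG : Gd X) (w : List (Fin 5)) :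
    OkFX X w 7 (X.R w) (X.pl w) 0 0 (X.b0 (NN X.e w) w) 0 0 0 0 0 0 0 := by
  have hX : 0 < Xb (LX X w) := by
    unfold Xb Qb
    positivity
  exact ⟨by norm_num, le_rfl, le_rfl, hG.hpl w, by positivity, by positivity, hG.hb w,
    Nat.zero_le _, fun _ => Nat.zero_le _, Nat.zero_le _, Nat.zero_le _, Nat.zero_le _,
    by positivity, by positivity, hX, fun h => absurd h (by norm_num)⟩

/-- PSX: the language is in PSPACE. -/
theorem hPSX (hREC : StREC) (_hBNX : StBNX) (hFLX : StFLX) (hRKX : StRKX) (hTX1 : StTX1)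
    (hTX2 : StTX2) (hTX3 : StTX3) (hTX4 : StTX4) (hTX5 : StTX5) (hTX6 : StTX6) (hTX7 : StTX7)
    (hE1X : StE1X) (hE2X : StE2X) (hE3X : StE3X) : Pool.Agent.Helper79.GT.StPSX := by
  intro X hG
  have htag : ∀ w z, OkX X w z → TagX X w z := by
    intro w z hz
    unfold OkX at hz
    rcases hz with hz | ⟨T, r, c, a, b, u, k, m, fl, d, s, t, x, hok, hz⟩
    · rw [hz]
      exact (hTX7 X hG).2 w
    · rw [hz]
      have h1 := hok.1
      have h2 := hok.2.1
      obtain rfl | rfl | rfl | rfl | rfl | rfl | rfl : T = 1 ∨ T = 2 ∨ T = 3 ∨ T = 4 ∨ T = 5 ∨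
          T = 6 ∨ T = 7 := by
        omega
      · exact hTX1 X hG w r c a b u k m fl d s t x hok
      · exact hTX2 X hG w r c a b u k m fl d s t x hok
      · exact hTX3 X hG w r c a b u k m fl d s t x hok
      · exact hTX4 X hG w r c a b u k m fl d s t x hok
      · exact hTX5 X hG w r c a b u k m fl d s t x hok
      · exact hTX6 X hG w r c a b u k m fl d s t x hok
      · exact (hTX7 X hG).1 w r c a b u k m fl d s t x hok
  refine hREC (Fin 5) (fun w v => IniX X (v 1) w (v 0)) (fun w v => LenX X (v 1) w (v 0))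
    (fun w v => DelX X (v 3) w (v 0) (v 1)) (fun w v => StpX X (v 4) w (v 0) (v 1) (v 2) (v 3))
    (fun w v => OutX X (v 2) w (v 0) (v 1)) (fun w v => Z0X X (v 0) w) X.e (LangX X) (OkX X)
    (ValX X) (rkX X) ?_ ?_ ?_ ?_ ?_ ?_ ?_ ?_
  · exact (hE1X X hG (fun _ v => v 1) (fun _ v => v 0) (fun _ v => v 0) (e_get 1) (e_get 0)
      (e_get 0)).1
  · exact (hE1X X hG (fun _ v => v 1) (fun _ v => v 0) (fun _ v => v 0) (e_get 1) (e_get 0)
      (e_get 0)).2.1
  · exact hE2X X hG (fun _ v => v 3) (fun _ v => v 0) (fun _ v => v 1) (e_get 3) (e_get 0)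
      (e_get 1)
  · exact hE3X X hG (fun _ v => v 4) (fun _ v => v 0) (fun _ v => v 1) (fun _ v => v 2)
      (fun _ v => v 3) (e_get 4) (e_get 0) (e_get 1) (e_get 2) (e_get 3)
  · exact (hE1X X hG (fun _ v => v 2) (fun _ v => v 0) (fun _ v => v 1) (e_get 2) (e_get 0)
      (e_get 1)).2.2.1
  · exact (hE1X X hG (fun _ v => v 0) (fun _ v => v 0) (fun _ v => v 0) (e_get 0) (e_get 0)
      (e_get 0)).2.2.2
  · intro w z hz
    obtain ⟨t1, t2, t3, t4, t5⟩ := htag w z hz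
    obtain ⟨r1, r2⟩ := hRKX X hG w z hz
    refine ⟨r1, r2, t1, t2, ?_, t4, t5⟩
    intro j hj a ha
    obtain ⟨o1, o2, o3⟩ := t3 j hj
    exact ⟨o1, o2, fun x hx => o3 a ha x hx⟩
  · intro w
    have hok := ok0 X hG w
    obtain ⟨-, -, hv, -, hO⟩ := (hFLX X hG w).2.2.2 _ _ _ _ _ _ _ _ _ _ _ _ _ hok
    refine ⟨hO, ?_⟩
    change ValX X w (zzX X (NN X.e w) w 7 (X.R w) (X.pl w) 0 0 (X.b0 (NN X.e w) w) 0 0 0 0 0 0 0) ≠
      0 ↔ w ∈ LangX X
    rw [hv]
    have e : ValFX X w 7 (X.R w) (X.pl w) 0 0 (X.b0 (NN X.e w) w) 0 0 0 0 0 0 0 =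
        b01 (if X.pl w = 1 then WNs (AX X w) X.sk (HX X w) (X.R w) true (X.b0 (NN X.e w) w)
          else ¬ WNs (AX X w) X.sk (HX X w) (X.R w) false (X.b0 (NN X.e w) w)) := by
      simp [ValFX]
    rw [e, b01_ne]
    rfl

end Pool.Agent.Helper47.GT
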